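import Pool.Agent.Lib.MP_4fbe7c_an.FC.Main
import Pool.Agent.Lib.MP_4fbe7c_an.WH.H30.Osc
import Pool.Agent.Lib.MP_4fbe7c_an.WH.H16.Yiz
import Pool.Agent.Lib.MP_4fbe7c_an.WH.H43.Jde
import Pool.Agent.Lib.MP_4fbe7c_an.WH.H9.Ysm
import Pool.Agent.Lib.MP_4fbe7c_an.WH.H9.Ain
import Pool.Agent.Lib.MP_4fbe7c_an.WH.H63.Wlo
import Pool.Agent.Lib.MP_4fbe7c_an.WH.H63.Del
import Pool.Agent.Lib.MP_4fbe7c_an.WH.H65.Cmp
import Pool.Agent.Lib.MP_4fbe7c_an.WH.H65.Low
import Pool.Agent.Lib.MP_4fbe7c_an.WH.H54.Wfi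
import Pool.Agent.Lib.MP_4fbe7c_an.WH.H95.Ede
import Pool.Agent.Lib.MP_4fbe7c_an.WH.H95.Sde
import Pool.Agent.Lib.MP_4fbe7c_an.WH.H59.Qde
import Pool.Agent.Lib.MP_4fbe7c_an.WH.H22.WMain
import Pool.Agent.Lib.MP_4fbe7c_an.WH.H92.Wwt
import Pool.Agent.Lib.MP_4fbe7c_an.WH.H74.Reg
import Pool.Agent.Lib.MP_4fbe7c_an.WH.H76.Ydw
import Pool.Agent.Lib.MP_4fbe7c_an.WH.H76.Vst
import Pool.Agent.Lib.MP_4fbe7c_an.WH.H76.Sin

/-!
Project WH (MP_4fbe7c_an): the module statements, proved (all which do not need VDE).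
-/

set_option autoImplicit false

namespace Pool.Agent.Lib.MP_4fbe7c_an.WH

open Pool.Agent.Lib.MP_4fbe7c_an.FC

theorem osc_st : OscStatement := H30.osc
theorem yiz_st : YIzStatement := H16.yiz
theorem jde_st : JDeStatement := H43.jde yiz_st lgd_st
theorem wlo_st : WLoStatement := H63.wlo osc_st lse_st
theorem del_st : DelStatement := H63.del
theorem cmp_st : CmpStatement := H65.cmp
theorem low_st : LowStatement := H65.low del_st
theorem ydw_st : YDwStatement := H76.ydw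
theorem ede_st : EDeStatement := H95.ede ydw_st
theorem sde_st : SDeStatement := H95.sde yder_st lgd_st
theorem qde_st : QDeStatement := H59.qde yiz_st
theorem vst_st : VStStatement := H76.vst lse_st
theorem ain_st : AInStatement := H9.ain vst_st ede_st qde_st jde_st
theorem sin_st : SInStatement := H76.sinm yiz_st vst_st qde_st sde_st
theorem wwt_st : WWtStatement := H92.wwt

theorem wmain_of (h : VDeStatement) : WMainStatement :=
  H22.wmain pa_st
    (H54.wfi lgd_st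
      (H74.reg osc_st ybu_st (H9.ysm h vst_st yiz_st) mass_st lse_st)
      ain_st sin_st del_st low_st cmp_st ybd_st exs_st)
    wwt_st finc_st

end Pool.Agent.Lib.MP_4fbe7c_an.WH
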