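import Pool.Agent.Lib.MP_4fbe7c_an.FC.Iface2

/-!
Project WH (MP_4fbe7c_an): weak heterogeneity, `m = b + ε μ`: the slowest disperser wins for every
number of species and all rates `≥ a`, for `0 < ε ≤ ε₀(L, b, μ, a)`.
Definitions and the statements of all modules.
Proofs on paper: `Pool/Agent/Lib/MP_4fbe7c_an/WH/Paper.md`.
-/

set_option autoImplicit false

open Set

namespace Pool.Agent.Lib.MP_4fbe7c_an.WH

open Pool.Agent.Lib.MP_4fbe7c_an.SD Pool.Agent.Lib.MP_4fbe7c_an.FC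

/-- Weakly heterogeneous environment. -/
structure Wk (L b ε : ℝ) (m μ : ℝ → ℝ) : Prop where
  hb : 0 < b
  hε : 0 < ε
  hεb : ε ≤ b / 2
  hε1 : ε ≤ 1
  cμ : ContinuousOn μ (Icc 0 L)
  hμ : ∀ x ∈ Icc 0 L, |μ x| ≤ 1
  hm : ∀ x ∈ Icc 0 L, m x = b + ε * μ x

section defs

variable (L b : ℝ) (m : ℝ → ℝ) {N : ℕ} (d : Fin N → ℝ) (u v w : Fin N → ℝ → ℝ → ℝ)

open Classical in
/-- The set of the present species. -/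
noncomputable def PS : Finset (Fin N) := Finset.univ.filter fun k => Pres L u k

/-- Sum of the geometric means. -/
noncomputable def Wg (t : ℝ) : ℝ := ∑ k ∈ PS L u, gm L u k t

/-- Weighted mean of `d_k y_k`. -/
noncomputable def Yw (t : ℝ) : ℝ := ∑ k ∈ PS L u, gm L u k t / Wg L u t * (d k * yy L u v k t)

/-- The Lyapunov functional, normalised to have minimum zero. -/
noncomputable def Vs (t : ℝ) : ℝ :=
  mass L u t - b * (L * Real.log (Wg L u t)) - L * (b - b * Real.log b)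

/-- `∂_t log u_k`. -/
noncomputable def Tt (k : Fin N) (t x : ℝ) : ℝ :=
  d k * (w k t x / u k t x) + (m x - ∑ i, u i t x)

/-- Integral of `(∂_xx log u_k) ^ 2`. -/
noncomputable def zq (k : Fin N) (t : ℝ) : ℝ :=
  ∫ x in (0)..L, (w k t x / u k t x - (v k t x / u k t x) ^ 2) ^ 2

/-- Integral of `(T_k - mean T_k) ^ 2`. -/
noncomputable def Sd (k : Fin N) (t : ℝ) : ℝ :=
  ∫ x in (0)..L, (Tt m d u w k t x - (∫ z in (0)..L, Tt m d u w k t z) / L) ^ 2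

/-- The dissipation of the energy. -/
noncomputable def A2 (t : ℝ) : ℝ :=
  ∑ k ∈ PS L u, ∫ x in (0)..L, u k t x * Tt m d u w k t x ^ 2

/-- `∫ u_k e_k ^ 2`, `e_k = d_k |∂_x log u_k| ^ 2`. -/
noncomputable def ue (k : Fin N) (t : ℝ) : ℝ :=
  ∫ x in (0)..L, u k t x * (d k * (v k t x / u k t x) ^ 2) ^ 2

/-- `∫ e_k ^ 2`. -/
noncomputable def e2 (k : Fin N) (t : ℝ) : ℝ :=
  ∫ x in (0)..L, (d k * (v k t x / u k t x) ^ 2) ^ 2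

/-- The energy. -/
noncomputable def En (t : ℝ) : ℝ :=
  R2 L m u t + ∑ k ∈ PS L u, d k * ∫ x in (0)..L, v k t x ^ 2 / u k t x

/-- Auxiliary functional. -/
noncomputable def Jf (t : ℝ) : ℝ := ∑ k ∈ PS L u, gm L u k t * yy L u v k t

/-- Auxiliary functional of species `k`. -/
noncomputable def Pf (k : Fin N) (t : ℝ) : ℝ :=
  -(d k / 2 * yy L u v k t) +
    ∫ x in (0)..L, (m x - ∑ i, u i t x) * (Real.log (u k t x) - lg L u k t / L)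

/-- `- ∫_0^x (R - mean R)`. -/
noncomputable def Yc (t x : ℝ) : ℝ :=
  -(∫ z in (0)..x, (m z - ∑ i, u i t z)) + x / L * ∫ z in (0)..L, (m z - ∑ i, u i t z)

/-- `∫ Yc ^ 2`. -/
noncomputable def YN (t : ℝ) : ℝ := ∫ x in (0)..L, Yc L m u t x ^ 2

/-- `∫ (d_k ∂_x log u_k - Yc) ^ 2`. -/
noncomputable def De (k : Fin N) (t : ℝ) : ℝ :=
  ∫ x in (0)..L, (d k * (v k t x / u k t x) - Yc L m u t x) ^ 2

end defs

/-- The bounds which hold for all large times (`κ`, `Cy` depend only on `L`, `b`, `a`). -/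
structure Reg (L b ε κ Cy : ℝ) {N : ℕ} (d : Fin N → ℝ) (u v : Fin N → ℝ → ℝ → ℝ) (t : ℝ) :
    Prop where
  y : ∀ k ∈ PS L u, d k * yy L u v k t ≤ Cy * ε ^ 2
  lo : ∀ k ∈ PS L u, ∀ x ∈ Icc 0 L, gm L u k t * Real.exp (-κ) ≤ u k t x
  up : ∀ k ∈ PS L u, ∀ x ∈ Icc 0 L, u k t x ≤ gm L u k t * Real.exp κ
  xi : ∀ k ∈ PS L u, ∀ x ∈ Icc 0 L, |Real.log (u k t x) - lg L u k t / L| ≤ κ
  xs : ∀ k ∈ PS L u, ∀ x ∈ Icc 0 L,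
    (Real.log (u k t x) - lg L u k t / L) ^ 2 ≤ L * yy L u v k t
  wg : Wg L u t ≤ 4 * b

/-! ### Part 1: the solution is eventually close to the homogeneous one -/

/-- YIZ: the inequality for `yy` with second derivatives. -/
def YIzStatement : Prop :=
  ∀ (L M : ℝ) (m : ℝ → ℝ) (N : ℕ) (d : Fin N → ℝ) (u v w : Fin N → ℝ → ℝ → ℝ) (i : Fin N),
    Ctx L M m d u v w → Pres L u i → ∀ t, 0 < t →
    (∃ y' : ℝ, HasDerivAt (yy L u v i) y' t ∧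
      y' ≤ -(d i * zq L u v w i t) + R2 L m u t / d i) ∧
    yy L u v i t ≤ L ^ 2 * zq L u v w i t ∧
    ∀ x ∈ Icc 0 L, (v i t x / u i t x) ^ 2 ≤ L * zq L u v w i t

/-- OSC: oscillation bounds. -/
def OscStatement : Prop :=
  ∀ (L K : ℝ) (f f' : ℝ → ℝ), 0 < L → 0 ≤ K → DerivOn L f f' → ContinuousOn f' (Icc 0 L) →
    (∀ x ∈ Icc 0 L, 0 < f x) → ∫ x in (0)..L, (f' x / f x) ^ 2 ≤ K →
    (∀ x ∈ Icc 0 L, |Real.log (f x) - (∫ x in (0)..L, Real.log (f x)) / L| ≤ 1 + L * K ∧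
      (Real.log (f x) - (∫ x in (0)..L, Real.log (f x)) / L) ^ 2 ≤
        L * ∫ x in (0)..L, (f' x / f x) ^ 2) ∧
    ∫ x in (0)..L, f x ≤ L * Real.exp ((∫ x in (0)..L, Real.log (f x)) / L) *
      (1 + L / 2 * Real.exp (1 + L * K) * ∫ x in (0)..L, (f' x / f x) ^ 2)

/-- WLO: lower bound for `Wg`. -/
def WLoStatement : Prop :=
  ∀ (L b ε K T₀ : ℝ) (m μ : ℝ → ℝ) (N : ℕ) (d : Fin N → ℝ) (u v w : Fin N → ℝ → ℝ → ℝ),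
    Ctx L (2 * b) m d u v w → Wk L b ε m μ → 0 ≤ K → (∃ k, Pres L u k) → 0 < T₀ →
    (∀ k ∈ PS L u, ∀ t, T₀ ≤ t → yy L u v k t ≤ K) →
    ∃ T : ℝ, ∀ t, T ≤ t → b / (4 * Real.exp (1 + L * K)) ≤ Wg L u t

/-- VST: the functional `Vs`. -/
def VStStatement : Prop :=
  ∀ (L b ε : ℝ) (m μ : ℝ → ℝ) (N : ℕ) (d : Fin N → ℝ) (u v w : Fin N → ℝ → ℝ → ℝ),
    Ctx L (2 * b) m d u v w → Wk L b ε m μ → (∃ k, Pres L u k) → ∀ t, 0 < t →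
    0 ≤ Vs L b u t ∧ ∃ V' : ℝ, HasDerivAt (Vs L b u) V' t ∧
      V' ≤ -(R2 L m u t / 2) + ε ^ 2 * L / 2 - b * Yw L d u v t

/-- VUP: upper bound for `Vs` by the dissipation. -/
def VUpStatement : Prop :=
  ∀ (L b ε K a c : ℝ) (m μ : ℝ → ℝ) (N : ℕ) (d : Fin N → ℝ) (u v w : Fin N → ℝ → ℝ → ℝ)
    (t : ℝ), Ctx L (2 * b) m d u v w → Wk L b ε m μ → 0 ≤ K → 0 < a → 0 < c →
    (∃ k, Pres L u k) → 0 < t → (∀ k ∈ PS L u, yy L u v k t ≤ K ∧ a ≤ d k) → c ≤ Wg L u t →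
    Vs L b u t ≤ 2 / c * (R2 L m u t + ε ^ 2 * L) +
      b * L ^ 2 * Real.exp (1 + L * K) / (2 * a) * Yw L d u v t

/-- VDE: `Vs` is eventually of order `ε ^ 2`. -/
def VDeStatement : Prop :=
  ∀ (L b a : ℝ), 0 < L → 0 < b → 0 < a → ∃ C : ℝ, 0 < C ∧
    ∀ (ε : ℝ) (m μ : ℝ → ℝ) (N : ℕ) (d : Fin N → ℝ) (u v w : Fin N → ℝ → ℝ → ℝ),
      Ctx L (2 * b) m d u v w → Wk L b ε m μ → (∃ k, Pres L u k) →
      (∀ k, Pres L u k → a ≤ d k) →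
      ∃ T : ℝ, 0 < T ∧ ∀ t, T ≤ t → Vs L b u t ≤ C * ε ^ 2

/-- YSM: `d_k y_k` is eventually of order `ε ^ 2`. -/
def YSmStatement : Prop :=
  ∀ (L b a : ℝ), 0 < L → 0 < b → 0 < a → ∃ C : ℝ, 0 < C ∧
    ∀ (ε : ℝ) (m μ : ℝ → ℝ) (N : ℕ) (d : Fin N → ℝ) (u v w : Fin N → ℝ → ℝ → ℝ),
      Ctx L (2 * b) m d u v w → Wk L b ε m μ → (∃ k, Pres L u k) →
      (∀ k, Pres L u k → a ≤ d k) →
      ∃ T : ℝ, 0 < T ∧ ∀ t, T ≤ t → ∀ k ∈ PS L u, d k * yy L u v k t ≤ C * ε ^ 2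

/-- REG: the bounds `Reg` hold eventually. -/
def RegStatement : Prop :=
  ∀ (L b a : ℝ), 0 < L → 0 < b → 0 < a → ∃ κ Cy : ℝ, 0 < κ ∧ 0 < Cy ∧
    ∀ (ε : ℝ) (m μ : ℝ → ℝ) (N : ℕ) (d : Fin N → ℝ) (u v w : Fin N → ℝ → ℝ → ℝ),
      Ctx L (2 * b) m d u v w → Wk L b ε m μ → (∃ k, Pres L u k) →
      (∀ k, Pres L u k → a ≤ d k) →
      ∃ T : ℝ, 0 < T ∧ ∀ t, T ≤ t → Reg L b ε κ Cy d u v t

/-! ### Part 2: the time derivatives are small in the mean -/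

/-- YDW: time derivative of `∫ h_x ^ 2 / h` without mixed derivatives. -/
def YDwStatement : Prop :=
  ∀ (L : ℝ) (h h1 h2 ht : ℝ → ℝ → ℝ), 0 < L →
    ContinuousOn (fun p : ℝ × ℝ => h p.1 p.2) (Ioi 0 ×ˢ Icc 0 L) →
    ContinuousOn (fun p : ℝ × ℝ => h1 p.1 p.2) (Ioi 0 ×ˢ Icc 0 L) →
    ContinuousOn (fun p : ℝ × ℝ => h2 p.1 p.2) (Ioi 0 ×ˢ Icc 0 L) →
    ContinuousOn (fun p : ℝ × ℝ => ht p.1 p.2) (Ioi 0 ×ˢ Icc 0 L) →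
    (∀ t, 0 < t → ∀ x ∈ Icc 0 L, 0 < h t x) →
    (∀ t, 0 < t → DerivOn L (h t) (h1 t)) → (∀ t, 0 < t → DerivOn L (h1 t) (h2 t)) →
    (∀ t, 0 < t → h1 t 0 = 0 ∧ h1 t L = 0) →
    (∀ t, 0 < t → ∀ x ∈ Icc 0 L, HasDerivAt (fun s => h s x) (ht t x) t) →
    ∀ t, 0 < t → HasDerivAt (fun t => ∫ x in (0)..L, h1 t x ^ 2 / h t x)
      (-(∫ x in (0)..L, (2 * h2 t x / h t x - h1 t x ^ 2 / h t x ^ 2) * ht t x)) t

/-- EDE: the energy inequality. -/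
def EDeStatement : Prop :=
  ∀ (L M : ℝ) (m : ℝ → ℝ) (N : ℕ) (d : Fin N → ℝ) (u v w : Fin N → ℝ → ℝ → ℝ),
    Ctx L M m d u v w → ∀ t, 0 < t → 0 ≤ En L m d u v t ∧ 0 ≤ A2 L m d u w t ∧
    ∃ E' : ℝ, HasDerivAt (En L m d u v) E' t ∧
      E' ≤ -A2 L m d u w t + 1 / 4 * ∑ k ∈ PS L u, ue L d u v k t

/-- QDE: quartic terms. -/
def QDeStatement : Prop :=
  ∀ (L b ε κ Cy : ℝ) (m : ℝ → ℝ) (N : ℕ) (d : Fin N → ℝ) (u v w : Fin N → ℝ → ℝ → ℝ)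
    (t : ℝ) (k : Fin N), Ctx L (2 * b) m d u v w → 0 < t → Reg L b ε κ Cy d u v t →
    k ∈ PS L u →
    ue L d u v k t ≤ Real.exp κ * L * Cy * ε ^ 2 * (gm L u k t * (d k * zq L u v w k t)) ∧
    e2 L d u v k t ≤ L * Cy * ε ^ 2 * (d k * zq L u v w k t)

/-- JDE: the auxiliary functional `Jf`. -/
def JDeStatement : Prop :=
  ∀ (L b ε κ Cy a : ℝ) (m μ : ℝ → ℝ) (N : ℕ) (d : Fin N → ℝ) (u v w : Fin N → ℝ → ℝ → ℝ)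
    (t : ℝ), Ctx L (2 * b) m d u v w → Wk L b ε m μ → 0 < a → 0 < t → 0 ≤ Cy →
    Cy * ε ^ 2 * L ≤ a / 2 → (∀ k, Pres L u k → a ≤ d k) → Reg L b ε κ Cy d u v t →
    0 ≤ Jf L u v t ∧ ∃ J' : ℝ, HasDerivAt (Jf L u v) J' t ∧
      1 / 2 * (∑ k ∈ PS L u, gm L u k t * (d k * zq L u v w k t)) ≤
        -J' + 4 * b / a * R2 L m u t + 8 * b ^ 2 * Cy / a * ε ^ 2

/-- AIN: the dissipation of the energy is of order `ε ^ 4` in the mean. -/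
def AInStatement : Prop :=
  ∀ (L b κ Cy a : ℝ), 0 < L → 0 < b → 0 < κ → 0 < Cy → 0 < a → ∃ C : ℝ, 0 < C ∧
    ∀ (ε : ℝ) (m μ : ℝ → ℝ) (N : ℕ) (d : Fin N → ℝ) (u v w : Fin N → ℝ → ℝ → ℝ),
      Ctx L (2 * b) m d u v w → Wk L b ε m μ → Cy * ε ^ 2 * L ≤ a / 2 →
      (∃ k, Pres L u k) → (∀ k, Pres L u k → a ≤ d k) →
      ∃ G : ℝ → ℝ, ∀ t, 0 < t → Reg L b ε κ Cy d u v t → 0 ≤ G t ∧
        ∃ G' : ℝ, HasDerivAt G G' t ∧ A2 L m d u w t ≤ -G' + C * ε ^ 4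

/-- SDE: the variance of `T_k`. -/
def SDeStatement : Prop :=
  ∀ (L M : ℝ) (m : ℝ → ℝ) (N : ℕ) (d : Fin N → ℝ) (u v w : Fin N → ℝ → ℝ → ℝ) (k : Fin N),
    Ctx L M m d u v w → Pres L u k → ∀ t, 0 < t →
    ∃ P' : ℝ, HasDerivAt (Pf L m d u v k) P' t ∧
      Sd L m d u w k t ≤ 2 * P' + 2 * (∫ x in (0)..L,
        (∑ i ∈ PS L u, u i t x * Tt m d u w i t x) * (Real.log (u k t x) - lg L u k t / L)) +
        e2 L d u v k t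

/-- SIN: the variance of `T_k` in the mean. -/
def SInStatement : Prop :=
  ∀ (L b κ Cy a : ℝ), 0 < L → 0 < b → 0 < κ → 0 < Cy → 0 < a → ∃ C : ℝ, 0 < C ∧
    ∀ (ε : ℝ) (m μ : ℝ → ℝ) (N : ℕ) (d : Fin N → ℝ) (u v w : Fin N → ℝ → ℝ → ℝ) (k : Fin N),
      Ctx L (2 * b) m d u v w → Wk L b ε m μ → Pres L u k → (∀ i, Pres L u i → a ≤ d i) →
      ∃ G : ℝ → ℝ, ∀ t, 0 < t → Reg L b ε κ Cy d u v t → G t ≤ C ∧
        ∃ G' : ℝ, HasDerivAt G G' t ∧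
          Sd L m d u w k t ≤ G' + C / ε * A2 L m d u w t + C * ε ^ 3

/-! ### Part 3: comparison of the growth rates -/

/-- DEL: `d_k ∂_x log u_k` is close to `Yc`. -/
def DelStatement : Prop :=
  ∀ (L b ε κ Cy : ℝ) (m : ℝ → ℝ) (N : ℕ) (d : Fin N → ℝ) (u v w : Fin N → ℝ → ℝ → ℝ)
    (t : ℝ) (k : Fin N), Ctx L (2 * b) m d u v w → 0 < t → Reg L b ε κ Cy d u v t →
    k ∈ PS L u → De L m d u v k t ≤ 2 * L ^ 2 * Sd L m d u w k t + 2 * L * (Cy * ε ^ 2) ^ 2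

/-- LOW: lower bound for `YN`. -/
def LowStatement : Prop :=
  ∀ (L b κ Cy a : ℝ), 0 < L → 0 < b → 0 < κ → 0 < Cy → 0 < a → ∃ C : ℝ, 0 < C ∧
    ∀ (ε : ℝ) (m μ : ℝ → ℝ) (N : ℕ) (d : Fin N → ℝ) (u v w : Fin N → ℝ → ℝ → ℝ) (t : ℝ),
      Ctx L (2 * b) m d u v w → Wk L b ε m μ → (∀ i, Pres L u i → a ≤ d i) → 0 < t →
      Reg L b ε κ Cy d u v t →
      ε ^ 2 * (∫ x in (0)..L, ((∫ z in (0)..x, μ z) - x / L * ∫ z in (0)..L, μ z) ^ 2) ≤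
        C * (YN L m u t + A2 L m d u w t + ε ^ 4)

/-- CMP: comparison of `d_j y_j` and `d_i y_i`. -/
def CmpStatement : Prop :=
  ∀ (L M lam a a₂ : ℝ) (m : ℝ → ℝ) (N : ℕ) (d : Fin N → ℝ) (u v w : Fin N → ℝ → ℝ → ℝ)
    (t : ℝ) (i j : Fin N), Ctx L M m d u v w → Pres L u i → Pres L u j → 0 < t → 0 < a →
    1 < lam → a ≤ d i → d i ≤ a₂ → lam * d i ≤ d j →
    d j * yy L u v j t - d i * yy L u v i t ≤ -((1 - 1 / lam) / (2 * a₂) * YN L m u t) +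
      4 * (lam + 1) / ((lam - 1) * a) * (De L m d u v i t + De L m d u v j t)

/-- WFI: every species with `d_j ≥ lam d_{i₀}` decays. -/
def WFiStatement : Prop :=
  ∀ (L b a a₂ lam : ℝ) (μ : ℝ → ℝ), 0 < L → 0 < b → 0 < a → a ≤ a₂ → 1 < lam →
    ContinuousOn μ (Icc 0 L) → (∀ x ∈ Icc 0 L, |μ x| ≤ 1) →
    (∃ x ∈ Icc 0 L, ∃ y ∈ Icc 0 L, μ x ≠ μ y) → ∃ ε₀ : ℝ, 0 < ε₀ ∧
    ∀ (ε : ℝ) (m : ℝ → ℝ) (N : ℕ) (d : Fin N → ℝ) (u v w : Fin N → ℝ → ℝ → ℝ) (i₀ j : Fin N),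
      0 < ε → ε ≤ ε₀ → Ctx L (2 * b) m d u v w → Wk L b ε m μ → Pres L u i₀ → Pres L u j →
      a ≤ d i₀ → d i₀ ≤ a₂ → (∀ k, Pres L u k → d i₀ ≤ d k) → lam * d i₀ ≤ d j →
      Decays L u j

/-! ### Part 4: conclusion -/

/-- WWT: weights for rates close to the smallest one. -/
def WWtStatement : Prop :=
  ∀ (L b a : ℝ), 0 < L → 0 < b → 0 < a → ∃ lam ε₁ : ℝ, 1 < lam ∧ 0 < ε₁ ∧
    ∀ (ε d₀ D : ℝ) (m μ θ θ' θ'' : ℝ → ℝ), ε ≤ ε₁ → Wk L b ε m μ → ContinuousOn m (Icc 0 L) →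
      (∃ x ∈ Icc 0 L, ∃ y ∈ Icc 0 L, m x ≠ m y) → a ≤ d₀ → d₀ < D → D < lam * d₀ →
      Steady L m d₀ θ θ' θ'' → ∃ φ φ' φ'' : ℝ → ℝ, Weight L m θ D φ φ' φ''

/-- WMAIN: the theorem. -/
def WMainStatement : Prop :=
  ∀ (L b a : ℝ) (μ : ℝ → ℝ), 0 < L → 0 < b → 0 < a → ContinuousOn μ (Icc 0 L) →
    (∀ x ∈ Icc 0 L, |μ x| ≤ 1) → (∃ x ∈ Icc 0 L, ∃ y ∈ Icc 0 L, μ x ≠ μ y) →
    ∃ ε₀ : ℝ, 0 < ε₀ ∧ ∀ (ε : ℝ), 0 < ε → ε ≤ ε₀ → ∀ (N : ℕ) (d : Fin N → ℝ) (i₀ : Fin N)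
      (θ θ' θ'' : ℝ → ℝ), a ≤ d i₀ → (∀ j, j ≠ i₀ → d i₀ < d j) →
      Steady L (fun x => b + ε * μ x) (d i₀) θ θ' θ'' →
      Gas L (fun x => b + ε * μ x) d i₀ θ

end Pool.Agent.Lib.MP_4fbe7c_an.WH
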